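import Pool.Agent.Q69.FinTrace

/-!
# MP_090ff9_an: average shadowing, full measure center, mixing and entropy
-/

set_option autoImplicit false
open Filter Topology Set MeasureTheory

namespace Pool.Agent.Results.MP_090ff9_an.MixingOrEntropy

open Q69.AvgFactor Q69.FinTrace

variable {X : Type*} [MetricSpace X]

/-- The measure center: the complement of the union of all open sets that are null for every
invariant Borel probability measure. -/
def measureCenter [MeasurableSpace X] (f : X → X) : Set X :=
  (⋃₀ {U : Set X | IsOpen U ∧ ∀ μ : Measure X, IsProbabilityMeasure μ →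
    MeasurePreserving f μ μ → μ U = 0})ᶜ

/-- Topological mixing. -/
def Mixing (f : X → X) : Prop :=
  ∀ U V : Set X, IsOpen U → IsOpen V → U.Nonempty → V.Nonempty →
    ∃ N : ℕ, ∀ n ≥ N, (f^[n] '' U ∩ V).Nonempty

/-- Topological entropy (Bowen–Dinaburg), Mathlib's definition. -/
noncomputable def htop (f : X → X) : EReal := Dynamics.coverEntropy f univ

lemma spanning {f : X → X} (h : ¬ 0 < htop f) {ρ η : ℝ} (hρ : 0 < ρ) (hη : 0 < η) :
    ∀ᶠ n : ℕ in atTop, ∃ s : Finset X, (∀ z, ∃ y ∈ s, ∀ i < n, dist (f^[i] z) (f^[i] y) < ρ) ∧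
      (s.card : ℝ) ≤ Real.exp (η * n) := by
  have h1 : Dynamics.coverEntropyEntourage f univ {p : X × X | dist p.1 p.2 < ρ} < (η : EReal) := by
    refine lt_of_le_of_lt ((Dynamics.coverEntropyEntourage_le_coverEntropy f univ
      (Metric.dist_mem_uniformity hρ)).trans (not_lt.1 h)) ?_
    exact_mod_cast hη
  filter_upwards [ExpGrowth.eventually_le_exp h1] with n hn
  have h2 : EReal.exp ((η : EReal) * n) = ENNReal.ofReal (Real.exp (η * n)) := by
    rw [← EReal.exp_coe]
    norm_cast
  rw [h2] at hn
  have h3 : Dynamics.coverMincard f univ {p : X × X | dist p.1 p.2 < ρ} n < ⊤ := by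
    by_contra hcon
    rw [not_lt, top_le_iff] at hcon
    rw [hcon] at hn
    simp at hn
  obtain ⟨s, hs, hc⟩ := (Dynamics.coverMincard_finite_iff _ _ _ _).1 h3
  refine ⟨s, fun z => ?_, ?_⟩
  · obtain ⟨y, hy, hzy⟩ := hs (mem_univ z)
    refine ⟨y, hy, fun i hi => ?_⟩
    have := Dynamics.mem_dynEntourage.1 hzy i hi
    exact this
  · rw [← hc] at hn
    have h4 : ((s.card : ℕ) : ENNReal) ≤ ENNReal.ofReal (Real.exp (η * n)) := by
      simpa using hn
    rw [← ENNReal.ofReal_natCast, ENNReal.ofReal_le_ofReal_iff (Real.exp_pos _).le] at h4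
    exact h4

/-- Hamming balls are small. -/
lemma ball_card (m : ℕ) (w : Fin (4 * m) → Bool) :
    (((Finset.univ.filter fun w' : Fin (4 * m) → Bool =>
      (Finset.univ.filter fun i => w i ≠ w' i).card ≤ m).card : ℕ) : ℝ) ≤ (256 / 27 : ℝ) ^ m := by
  classical
  have h1 : ∑ w' : Fin (4 * m) → Bool, ∏ i, (if w i = w' i then (1 : ℝ) else 1 / 3) =
      (4 / 3) ^ (4 * m) := by
    have h2 := Finset.prod_univ_sum (fun _ : Fin (4 * m) => (Finset.univ : Finset Bool))
      (fun i b => if w i = b then (1 : ℝ) else 1 / 3)
    rw [Fintype.piFinset_univ] at h2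
    rw [← h2]
    have h3 : ∀ i : Fin (4 * m), ∑ b : Bool, (if w i = b then (1 : ℝ) else 1 / 3) = 4 / 3 := by
      intro i
      rw [Fintype.sum_bool]
      cases w i <;> norm_num
    rw [Finset.prod_congr rfl fun i _ => h3 i, Finset.prod_const, Finset.card_univ,
      Fintype.card_fin]
  have h2 : ∀ w' : Fin (4 * m) → Bool, ∏ i, (if w i = w' i then (1 : ℝ) else 1 / 3) =
      (1 / 3) ^ (Finset.univ.filter fun i => w i ≠ w' i).card := by
    intro w'
    rw [Finset.prod_ite, Finset.prod_const_one, one_mul, Finset.prod_const]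
  have h3 : ((Finset.univ.filter fun w' : Fin (4 * m) → Bool =>
      (Finset.univ.filter fun i => w i ≠ w' i).card ≤ m).card : ℝ) * (1 / 3) ^ m ≤
      (4 / 3) ^ (4 * m) := by
    rw [← h1, ← nsmul_eq_mul, ← Finset.sum_const]
    refine (Finset.sum_le_sum fun w' hw' => ?_).trans
      (Finset.sum_le_sum_of_subset_of_nonneg (Finset.filter_subset _ _) fun w' _ _ => ?_)
    · rw [h2]
      exact pow_le_pow_of_le_one (by norm_num) (by norm_num) (Finset.mem_filter.1 hw').2
    · rw [h2]; positivity
  have h4 : ((4 : ℝ) / 3) ^ (4 * m) = (256 / 27) ^ m * (1 / 3) ^ m := by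
    rw [pow_mul, ← mul_pow]; norm_num
  rw [h4] at h3
  exact le_of_mul_le_mul_right h3 (by positivity)

/-- Zero entropy and finite tracing force uniform mean proximality. -/
lemma mean_prox {f : X → X} (hft : FT f) (h : ¬ 0 < htop f) {c : ℝ} (hc : 0 < c) :
    ∃ N : ℕ, 0 < N ∧ ∀ x y : X, ∑ i ∈ Finset.range N, dist (f^[i] x) (f^[i] y) ≤ c * N := by
  classical
  obtain ⟨N₀, hN₀⟩ := hft (c / 16) (by positivity)
  set N := max N₀ 1 with hN
  have hNpos : 0 < N := lt_of_lt_of_le Nat.one_pos (le_max_right _ _)
  have hNpos' : (0 : ℝ) < N := by exact_mod_cast hNpos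
  refine ⟨N, hNpos, fun x y => ?_⟩
  by_contra hcon
  push Not at hcon
  have hη : 0 < Real.log (3 / 2) / (4 * N) := div_pos (Real.log_pos (by norm_num)) (by positivity)
  obtain ⟨n₀, hn₀⟩ := eventually_atTop.1 (spanning h (ρ := c / 16) (by positivity) hη)
  set m := n₀ + 1 with hm
  obtain ⟨s, hs, hscard⟩ := hn₀ (4 * m * N) (by nlinarith)
  have hexp : Real.exp (Real.log (3 / 2) / (4 * N) * ((4 * m * N : ℕ) : ℝ)) = (3 / 2 : ℝ) ^ m := by
    have : Real.log (3 / 2) / (4 * N) * ((4 * m * N : ℕ) : ℝ) = Real.log (3 / 2) * m := by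
      push_cast; field_simp
    rw [this, Real.exp_mul, Real.exp_log (by norm_num), Real.rpow_natCast]
  rw [hexp] at hscard
  -- start points
  let st : (Fin (4 * m) → Bool) → ℕ → X := fun w j =>
    if hj : j < 4 * m then (if w ⟨j, hj⟩ then x else y) else x
  choose z hz using fun w => hN₀ N (le_max_left _ _) hNpos (4 * m) (st w)
  choose Y hYs hY using hs
  -- the fibers are in Hamming balls
  have hfib : ∀ w w', Y (z w) = Y (z w') →
      (Finset.univ.filter fun i => w i ≠ w' i).card ≤ m := by
    intro w w' hww
    have h1 : ∑ i ∈ Finset.range (4 * m * N), dist (f^[i % N] (st w (i / N)))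
        (f^[i % N] (st w' (i / N))) ≤ c / 4 * ((4 * m * N : ℕ) : ℝ) := by
      have hle : ∀ i ∈ Finset.range (4 * m * N), dist (f^[i % N] (st w (i / N)))
          (f^[i % N] (st w' (i / N))) ≤ dist (f^[i] (z w)) (f^[i % N] (st w (i / N))) +
            dist (f^[i] (z w')) (f^[i % N] (st w' (i / N))) + c / 8 := by
        intro i hi
        have a1 := hY (z w) i (Finset.mem_range.1 hi)
        have a2 := hY (z w') i (Finset.mem_range.1 hi)
        rw [← hww] at a2
        have a3 := dist_triangle4 (f^[i % N] (st w (i / N))) (f^[i] (z w)) (f^[i] (z w'))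
          (f^[i % N] (st w' (i / N)))
        have a4 := dist_triangle_right (f^[i] (z w)) (f^[i] (z w')) (f^[i] (Y (z w)))
        rw [dist_comm (f^[i % N] (st w (i / N))) (f^[i] (z w))] at a3
        linarith
      refine (Finset.sum_le_sum hle).trans ?_
      rw [Finset.sum_add_distrib, Finset.sum_add_distrib, Finset.sum_const, Finset.card_range,
        nsmul_eq_mul]
      have b1 := hz w
      have b2 := hz w'
      push_cast at b1 b2 ⊢
      linarith
    have h2 : ∑ i ∈ Finset.range (4 * m * N), dist (f^[i % N] (st w (i / N)))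
        (f^[i % N] (st w' (i / N))) ≥
        ((Finset.univ.filter fun i => w i ≠ w' i).card : ℝ) * (c * N) := by
      have e1 : ∀ J : ℕ, ∑ i ∈ Finset.range (J * N), dist (f^[i % N] (st w (i / N)))
          (f^[i % N] (st w' (i / N))) = ∑ j ∈ Finset.range J,
            ∑ i ∈ Finset.range N, dist (f^[i] (st w j)) (f^[i] (st w' j)) := by
        intro J
        induction J with
        | zero => simp
        | succ J ih =>
          rw [Nat.succ_mul, Finset.sum_range_add, ih, Finset.sum_range_succ]
          congr 1
          apply Finset.sum_congr rfl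
          intro i hi
          rw [Finset.mem_range] at hi
          rw [mul_comm J N, Nat.mul_add_mod, Nat.mod_eq_of_lt hi, Nat.mul_add_div hNpos,
            Nat.div_eq_of_lt hi, add_zero]
      rw [e1, Finset.sum_range, ← nsmul_eq_mul, ← Finset.sum_const]
      refine (Finset.sum_le_sum fun j hj => ?_).trans
        (Finset.sum_le_sum_of_subset_of_nonneg (Finset.filter_subset _ _) fun j _ _ =>
          Finset.sum_nonneg fun i _ => dist_nonneg)
      have hj' : w j ≠ w' j := (Finset.mem_filter.1 hj).2
      have hst : st w j = if w j then x else y := by simp [st, j.2]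
      have hst' : st w' j = if w' j then x else y := by simp [st, j.2]
      rw [hst, hst']
      cases h1 : w j <;> cases h2 : w' j
      · exact absurd (h1.trans h2.symm) hj'
      · simp only [Bool.false_eq_true, if_false, if_true]
        refine hcon.le.trans (le_of_eq ?_)
        exact Finset.sum_congr rfl fun i _ => dist_comm _ _
      · simp only [Bool.false_eq_true, if_false, if_true]
        exact hcon.le
      · exact absurd (h1.trans h2.symm) hj'
    have h3 : ((Finset.univ.filter fun i => w i ≠ w' i).card : ℝ) * (c * N) ≤ m * (c * N) := by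
      refine h2.trans (h1.trans (le_of_eq ?_))
      push_cast; ring
    have h4 : ((Finset.univ.filter fun i => w i ≠ w' i).card : ℝ) ≤ m :=
      le_of_mul_le_mul_right h3 (by positivity)
    exact_mod_cast h4
  -- counting
  have hcard : ((2 : ℝ) ^ (4 * m)) ≤ (3 / 2) ^ m * (256 / 27) ^ m := by
    have h1 : (Finset.univ : Finset (Fin (4 * m) → Bool)).card =
        ∑ b ∈ s, (Finset.univ.filter fun w => Y (z w) = b).card :=
      Finset.card_eq_sum_card_fiberwise fun w _ => hYs _
    have h2 : ∀ b ∈ s, (((Finset.univ.filter fun w => Y (z w) = b).card : ℕ) : ℝ) ≤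
        (256 / 27) ^ m := by
      intro b _
      by_cases hne : (Finset.univ.filter fun w => Y (z w) = b).Nonempty
      · obtain ⟨w₀, hw₀⟩ := hne
        refine le_trans ?_ (ball_card m w₀)
        have : (Finset.univ.filter fun w => Y (z w) = b) ⊆
            Finset.univ.filter fun w' : Fin (4 * m) → Bool =>
              (Finset.univ.filter fun i => w₀ i ≠ w' i).card ≤ m := by
          intro w hw
          refine Finset.mem_filter.2 ⟨Finset.mem_univ _, hfib w₀ w ?_⟩
          rw [(Finset.mem_filter.1 hw₀).2, (Finset.mem_filter.1 hw).2]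
        exact_mod_cast Finset.card_le_card this
      · rw [Finset.not_nonempty_iff_eq_empty.1 hne]
        simp only [Finset.card_empty, Nat.cast_zero]
        positivity
    rw [Finset.card_univ, Fintype.card_fun, Fintype.card_bool, Fintype.card_fin] at h1
    have h3 : ((2 : ℝ) ^ (4 * m)) = ∑ b ∈ s, ((Finset.univ.filter fun w => Y (z w) = b).card : ℝ) :=
      by exact_mod_cast h1
    rw [h3]
    refine (Finset.sum_le_sum h2).trans ?_
    rw [Finset.sum_const, nsmul_eq_mul]
    gcongr
  have hlt : ((3 / 2 : ℝ)) ^ m * (256 / 27) ^ m < 2 ^ (4 * m) := by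
    rw [← mul_pow, pow_mul]
    apply pow_lt_pow_left₀ (by norm_num) (by norm_num)
    omega
  linarith

/-- `f` is the identity on the measure center, if mean proximality holds. -/
lemma subsingleton [CompactSpace X] [MeasurableSpace X] [BorelSpace X] {f : X → X}
    (hf : Continuous f)
    (hp : ∀ c : ℝ, 0 < c → ∃ N : ℕ, 0 < N ∧ ∀ x y : X,
      ∑ i ∈ Finset.range N, dist (f^[i] x) (f^[i] y) ≤ c * N)
    (hmc : measureCenter f = univ) : Subsingleton X := by
  have hfix : ∀ x, f x = x := by
    by_contra hcon
    push Not at hcon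
    obtain ⟨x₀, hx₀⟩ := hcon
    have hx : x₀ ∈ measureCenter f := hmc ▸ mem_univ _
    apply hx
    refine ⟨{x | f x ≠ x}, ⟨isOpen_ne_fun hf continuous_id, fun μ hμ hinv => ?_⟩, hx₀⟩
    have hg : Measurable fun x => edist x (f x) := (continuous_id.edist hf).measurable
    have hzero : ∫⁻ x, edist x (f x) ∂μ = 0 := by
      apply le_antisymm _ zero_le
      apply ENNReal.le_of_forall_pos_le_add
      intro c hc _
      rw [zero_add]
      obtain ⟨N, hN, h⟩ := hp c hc
      have h1 : (N : ENNReal) * ∫⁻ x, edist x (f x) ∂μ ≤ N * (c : ENNReal) := by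
        calc (N : ENNReal) * ∫⁻ x, edist x (f x) ∂μ
            = ∑ i ∈ Finset.range N, ∫⁻ x, edist (f^[i] x) (f (f^[i] x)) ∂μ := by
              rw [Finset.sum_congr rfl (g := fun _ => ∫⁻ x, edist x (f x) ∂μ)]
              · rw [Finset.sum_const, Finset.card_range, nsmul_eq_mul]
              · intro i _
                exact (hinv.iterate i).lintegral_comp hg
          _ = ∫⁻ x, ∑ i ∈ Finset.range N, edist (f^[i] x) (f (f^[i] x)) ∂μ := by
              rw [lintegral_finset_sum]
              intro i _
              exact hg.comp (hf.iterate i).measurable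
          _ ≤ ∫⁻ x, N * (c : ENNReal) ∂μ := by
              apply lintegral_mono
              intro x
              have h2 := h x (f x)
              have h3 : ∑ i ∈ Finset.range N, edist (f^[i] x) (f (f^[i] x)) =
                  ENNReal.ofReal (∑ i ∈ Finset.range N, dist (f^[i] x) (f^[i] (f x))) := by
                rw [ENNReal.ofReal_sum_of_nonneg fun i _ => dist_nonneg]
                apply Finset.sum_congr rfl
                intro i _
                rw [← edist_dist, ← Function.iterate_succ_apply' f i x, Function.iterate_succ_apply]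
              simp only
              rw [h3]
              refine (ENNReal.ofReal_le_ofReal h2).trans (le_of_eq ?_)
              rw [ENNReal.ofReal_mul (NNReal.coe_nonneg c), ENNReal.ofReal_natCast, mul_comm,
                ENNReal.ofReal_coe_nnreal]
          _ = N * (c : ENNReal) := by
              rw [lintegral_const, measure_univ, mul_one]
      have hN0 : (N : ENNReal) ≠ 0 := by exact_mod_cast hN.ne'
      exact (ENNReal.mul_le_mul_iff_right hN0 (ENNReal.natCast_ne_top N)).1 h1
    rw [lintegral_eq_zero_iff hg] at hzero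
    have h1 : {x | f x ≠ x} = {x | ¬ (edist x (f x) = (0 : X → ENNReal) x)} := by
      ext x
      simp [edist_eq_zero, eq_comm]
    rw [h1]
    exact hzero
  refine ⟨fun x y => ?_⟩
  by_contra hxy
  have hd : 0 < dist x y := dist_pos.2 hxy
  obtain ⟨N, hN, h⟩ := hp (dist x y / 2) (half_pos hd)
  have h1 := h x y
  have h2 : ∀ i z, f^[i] z = z := fun i z => Function.iterate_fixed (hfix z) i
  simp only [h2] at h1
  rw [Finset.sum_const, Finset.card_range, nsmul_eq_mul] at h1
  have hN' : (0 : ℝ) < N := by exact_mod_cast hN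
  nlinarith

/-- If `f` has the average shadowing property, the asymptotic average shadowing property or the
almost specification property, and its measure center is the whole space, then `f` is topologically
mixing or `h_top(f) > 0`; in fact `X` has at most one point or `h_top(f) > 0`. -/
theorem result {X : Type*} [MetricSpace X] [CompactSpace X] [MeasurableSpace X] [BorelSpace X]
    (f : X → X) (hf : Continuous f) (hmc : measureCenter f = univ)
    (hP : HasAvgShadowing f ∨ HasAsympAvgShadowing f ∨ AlmostSpec f) :
    (Mixing f ∨ 0 < htop f) ∧ (Subsingleton X ∨ 0 < htop f) := by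
  have key : Subsingleton X ∨ 0 < htop f := by
    by_cases h : 0 < htop f
    · exact Or.inr h
    · left
      have hft : FT f := by
        rcases hP with h1 | h1 | h1
        · exact ft_of_asp h1
        · exact ft_of_aasp h1
        · exact ft_of_as h1
      exact subsingleton hf (fun c hc => mean_prox hft h hc) hmc
  refine ⟨?_, key⟩
  rcases key with h | h
  · left
    rintro U V _ _ ⟨u, hu⟩ ⟨v, hv⟩
    exact ⟨0, fun n _ => ⟨v, ⟨u, hu, Subsingleton.elim _ _⟩, hv⟩⟩
  · exact Or.inr h

end Pool.Agent.Results.MP_090ff9_an.MixingOrEntropy
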